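import Pool.Agent.H360R2.RG.Fin

/-! # r-gaps: the normalisation `γ log γ / 2π`, and `N_k(T; B)` -/

open Complex Filter Topology Set MeasureTheory

namespace RGap

open SG (hh nn dd dl ord NZ)
open SP (RHs ZZ mu wt Mk Par Eb PS chi qq tt)

theorem PosLarge.delta {k : ℕ} {c : ℝ} (h : PosLarge k c) :
    ∃ ε : ℝ, 0 < ε ∧ ∀ᶠ N : ℕ in atTop, ε * N ≤
      (({n : ℕ | 1 ≤ n ∧ n ≤ N ∧
        c < (ord (n + k) * Real.log (ord (n + k)) - ord n * Real.log (ord n)) /
          (2 * Real.pi)}.ncard : ℕ) : ℝ) := by
  obtain ⟨ε, hε, h⟩ := h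
  refine ⟨ε, hε, ?_⟩
  filter_upwards [h] with N hN
  refine hN.trans ?_
  have hpi := Real.pi_gt_three
  have hsub : {n : ℕ | 1 ≤ n ∧ n ≤ N ∧
        c < (ord (n + k) - ord n) / (2 * Real.pi) * Real.log (ord n / (2 * Real.pi))} ⊆
      {n : ℕ | 1 ≤ n ∧ n ≤ N ∧
        c < (ord (n + k) * Real.log (ord (n + k)) - ord n * Real.log (ord n)) /
          (2 * Real.pi)} := by
    rintro n ⟨h1, h2, h3⟩
    refine ⟨h1, h2, h3.trans_le ?_⟩
    have hp : 0 < ord n := SG.ord_pos h1
    have hp' : 0 < ord (n + k) := SG.ord_pos (by omega)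
    have h7 : ord n ≤ ord (n + k) := SG.ord_mono h1 (by omega)
    have h8 : Real.log (ord n / (2 * Real.pi)) ≤ Real.log (ord n) := by
      apply Real.log_le_log (by positivity)
      apply div_le_self hp.le
      linarith
    have h9 : Real.log (ord n) ≤ Real.log (ord (n + k)) := Real.log_le_log hp h7
    rw [div_mul_eq_mul_div]
    apply div_le_div_of_nonneg_right _ (by positivity)
    have h10 : (ord (n + k) - ord n) * Real.log (ord n / (2 * Real.pi)) ≤
        (ord (n + k) - ord n) * Real.log (ord n) :=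
      mul_le_mul_of_nonneg_left h8 (by linarith)
    have h11 : ord (n + k) * Real.log (ord n) ≤ ord (n + k) * Real.log (ord (n + k)) :=
      mul_le_mul_of_nonneg_left h9 hp'.le
    linarith
  exact_mod_cast Set.ncard_le_ncard hsub
    ((Set.finite_Iic N).subset (fun n hn => hn.2.1))

theorem PosSmall.delta {k : ℕ} {c c' : ℝ} (h : PosSmall k c) (hcc : c < c') :
    ∃ ε : ℝ, 0 < ε ∧ ∀ᶠ N : ℕ in atTop, ε * N ≤
      (({n : ℕ | 1 ≤ n ∧ n ≤ N ∧
        (ord (n + k) * Real.log (ord (n + k)) - ord n * Real.log (ord n)) /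
          (2 * Real.pi) < c'}.ncard : ℕ) : ℝ) := by
  obtain ⟨ε, hε, h⟩ := h
  refine ⟨ε / 2, by positivity, ?_⟩
  have hpi := Real.pi_gt_three
  have hpi4 := Real.pi_lt_four
  -- threshold: `log (X / 2π) ≥ R`
  set d : ℝ := c' - c with hd
  have hd0 : 0 < d := by rw [hd]; linarith
  set R : ℝ := max 1 (2 * Real.pi * |c| * (1 + 4 / d)) with hR
  have hR1 : 1 ≤ R := le_max_left _ _
  set X : ℝ := 2 * Real.pi * Real.exp R with hX
  set n0 : ℕ := NZ X with hn0
  have hev : ∀ᶠ N : ℕ in atTop, (n0 : ℝ) ≤ ε / 2 * N :=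
    (tendsto_natCast_atTop_atTop.const_mul_atTop (by positivity : 0 < ε / 2)).eventually_ge_atTop _
  filter_upwards [h, hev] with N hN hN0
  set S1 : Set ℕ := {n : ℕ | 1 ≤ n ∧ n ≤ N ∧
      (ord (n + k) - ord n) / (2 * Real.pi) * Real.log (ord n / (2 * Real.pi)) < c} with hS1
  set S2 : Set ℕ := {n : ℕ | 1 ≤ n ∧ n ≤ N ∧
        (ord (n + k) * Real.log (ord (n + k)) - ord n * Real.log (ord n)) /
          (2 * Real.pi) < c'} with hS2
  have hfin2 : S2.Finite := (Set.finite_Iic N).subset (fun n hn => hn.2.1)
  have hsub : S1 ⊆ S2 ∪ ↑(Finset.Icc 1 n0) := by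
    rintro n ⟨h1, h2, h3⟩
    by_cases hn : n ≤ n0
    · right
      simp only [Finset.coe_Icc, Set.mem_Icc]
      exact ⟨h1, hn⟩
    · left
      refine ⟨h1, h2, ?_⟩
      push Not at hn
      have hXn : X < ord n := by
        by_contra hcon
        push Not at hcon
        have := (SG.ord_le_iff h1 X).mp hcon
        omega
      have hp : 0 < ord n := SG.ord_pos h1
      have hp' : 0 < ord (n + k) := SG.ord_pos (by omega)
      have h7 : ord n ≤ ord (n + k) := SG.ord_mono h1 (by omega)
      set l : ℝ := Real.log (ord n / (2 * Real.pi)) with hl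
      have hlR : R ≤ l := by
        rw [hl, Real.le_log_iff_exp_le (by positivity), le_div_iff₀ (by positivity)]
        rw [hX] at hXn
        linarith
      have hl0 : 0 < l := by linarith
      set g : ℝ := ord (n + k) - ord n with hg
      have hg0 : 0 ≤ g := by rw [hg]; linarith
      have h3' : g * l < 2 * Real.pi * c := by
        have : g / (2 * Real.pi) * l = g * l / (2 * Real.pi) := by ring
        rw [this, div_lt_iff₀ (by positivity)] at h3
        linarith
      -- `g` is small
      have hgR : g * R ≤ 2 * Real.pi * |c| := by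
        calc g * R ≤ g * l := mul_le_mul_of_nonneg_left hlR hg0
          _ ≤ 2 * Real.pi * c := h3'.le
          _ ≤ 2 * Real.pi * |c| := mul_le_mul_of_nonneg_left (le_abs_self c) (by positivity)
      have hg1 : g * (1 + 4 / d) ≤ 1 := by
        by_cases hc0 : |c| = 0
        · rw [hc0, mul_zero] at hgR
          have : g ≤ 0 := by nlinarith
          have hgz : g = 0 := le_antisymm this hg0
          rw [hgz]; simp
        · have hcpos : 0 < |c| := lt_of_le_of_ne (abs_nonneg c) (Ne.symm hc0)
          have h10 : 2 * Real.pi * |c| * (1 + 4 / d) ≤ R := le_max_right _ _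
          have h11 : g * (2 * Real.pi * |c| * (1 + 4 / d)) ≤ 2 * Real.pi * |c| :=
            (mul_le_mul_of_nonneg_left h10 hg0).trans hgR
          have h12 : (2 * Real.pi * |c|) * (g * (1 + 4 / d)) ≤ (2 * Real.pi * |c|) * 1 := by
            calc _ = g * (2 * Real.pi * |c| * (1 + 4 / d)) := by ring
              _ ≤ _ := by rw [mul_one]; exact h11
          exact le_of_mul_le_mul_left h12 (by positivity)
      have h4d : 0 < 4 / d := by positivity
      have hg2 : g ≤ 1 := by nlinarith
      have hg3 : g * 4 ≤ d := by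
        have h13 : g * (4 / d) ≤ 1 := by nlinarith
        rw [mul_div_assoc', div_le_one hd0] at h13
        exact h13
      have hord1 : 1 ≤ ord n := by
        have h14 : 1 ≤ Real.exp R := Real.one_le_exp (by linarith)
        have : 1 ≤ X := by rw [hX]; nlinarith
        linarith
      -- logs
      have h15 : Real.log (ord (n + k)) ≤ Real.log (ord n) + 1 := by
        have h16 : ord (n + k) ≤ ord n * Real.exp 1 := by
          have h17 : (2 : ℝ) ≤ Real.exp 1 := by
            have := Real.add_one_le_exp (1 : ℝ)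
            linarith
          have h18 : ord (n + k) = ord n + g := by rw [hg]; ring
          rw [h18]
          nlinarith
        calc Real.log (ord (n + k)) ≤ Real.log (ord n * Real.exp 1) := Real.log_le_log hp' h16
          _ = Real.log (ord n) + 1 := by
            rw [Real.log_mul hp.ne' (Real.exp_pos 1).ne', Real.log_exp]
      have h19 : ord n * (Real.log (ord (n + k)) - Real.log (ord n)) ≤ g := by
        rw [← Real.log_div hp'.ne' hp.ne']
        have h20 := Real.log_le_sub_one_of_pos (show 0 < ord (n + k) / ord n by positivity)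
        calc ord n * Real.log (ord (n + k) / ord n) ≤ ord n * (ord (n + k) / ord n - 1) :=
              mul_le_mul_of_nonneg_left h20 hp.le
          _ = g := by rw [hg]; field_simp
      have h21 : Real.log (ord n) = l + Real.log (2 * Real.pi) := by
        rw [hl, Real.log_div hp.ne' (by positivity)]
        ring
      have h22 : Real.log (2 * Real.pi) ≤ 4 := by
        have h23 : Real.log (2 * Real.pi) ≤ Real.log (Real.exp 4) := by
          apply Real.log_le_log (by positivity)
          have h24 := Real.quadratic_le_exp_of_nonneg (show (0 : ℝ) ≤ 4 by norm_num)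
          linarith
        rwa [Real.log_exp] at h23
      rw [div_lt_iff₀ (by positivity)]
      have h25 : ord (n + k) * Real.log (ord (n + k)) - ord n * Real.log (ord n) =
          g * Real.log (ord (n + k)) + ord n * (Real.log (ord (n + k)) - Real.log (ord n)) := by
        rw [hg]; ring
      rw [h25]
      have h26 : g * Real.log (ord (n + k)) ≤ g * (l + Real.log (2 * Real.pi) + 1) := by
        apply mul_le_mul_of_nonneg_left _ hg0
        rw [← h21]
        exact h15
      have h27 : g * (l + Real.log (2 * Real.pi) + 1) ≤ g * l + g * 5 := by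
        nlinarith
      have h28 : c' = c + d := by rw [hd]; ring
      rw [h28]
      nlinarith
  have h5 : S1.ncard ≤ S2.ncard + n0 := by
    calc S1.ncard ≤ (S2 ∪ ↑(Finset.Icc 1 n0)).ncard :=
          Set.ncard_le_ncard hsub (hfin2.union (Finset.finite_toSet _))
      _ ≤ S2.ncard + (↑(Finset.Icc 1 n0) : Set ℕ).ncard := Set.ncard_union_le _ _
      _ = S2.ncard + n0 := by rw [Set.ncard_coe_finset, Nat.card_Icc]; simp
  have h6 : (S1.ncard : ℝ) ≤ S2.ncard + n0 := by exact_mod_cast h5
  linarith

/-- the tuples counted by `N_{r+1}(T; ∏ [a_i, b_i])` -/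
def Tup (r : ℕ) (T : ℝ) (a b : Fin r → ℝ) : Set (Fin (r + 1) → ℕ) :=
  {j | Function.Injective j ∧ (∀ i, 1 ≤ j i ∧ ord (j i) ≤ T) ∧
    ∀ i : Fin r, (ord (j i.castSucc) - ord (j (Fin.last r))) * (Real.log T / (2 * Real.pi)) ∈
      Set.Icc (a i) (b i)}

theorem Tup_finite (r : ℕ) (T : ℝ) (a b : Fin r → ℝ) : (Tup r T a b).Finite := by
  refine (Set.Finite.pi (fun _ : Fin (r + 1) => Set.finite_Iic (NZ T))).subset ?_
  rintro j ⟨-, h2, -⟩
  rw [Set.mem_pi]
  intro i _
  exact (SG.ord_le_iff (h2 i).1 T).mp (h2 i).2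

/-- from small `r`-gaps to `(r+1)`-tuples -/
theorem PosT.tuples {r : ℕ} {c : ℝ} (h : PosT r c) (a b : Fin r → ℝ) (ha : ∀ i, a i ≤ 0)
    (hb : ∀ i, c ≤ b i) :
    ∃ κ : ℝ, 0 < κ ∧ ∀ᶠ T : ℝ in atTop, κ * (T / (2 * Real.pi) * Real.log T) ≤
      ((Tup r T a b).ncard : ℝ) := by
  obtain ⟨ε, T0, hε, hT0, h⟩ := h
  have hpi := Real.pi_pos
  refine ⟨ε * (2 * Real.pi), by positivity, ?_⟩
  filter_upwards [eventually_ge_atTop T0] with T hT
  have hT10 : 10 ≤ T := hT0.trans hT
  have hlog : 0 < Real.log T := Real.log_pos (by linarith)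
  have h1 := h T hT
  have e1 : ε * (2 * Real.pi) * (T / (2 * Real.pi) * Real.log T) = ε * (T * Real.log T) := by
    field_simp
  rw [e1]
  refine h1.trans ?_
  set S : Set ℕ := {n : ℕ | 1 ≤ n ∧ ord (n + r) ≤ T ∧
      ord (n + r) - ord n ≤ 2 * Real.pi * c / Real.log T} with hS
  -- the tuple attached to `n`: last entry `n`, the others `n+1, …, n+r`
  set f : ℕ → (Fin (r + 1) → ℕ) := fun n i => if i = Fin.last r then n else n + 1 + (i : ℕ) with hf
  have hcs : ∀ (n : ℕ) (i : Fin r), f n i.castSucc = n + 1 + (i : ℕ) := by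
    intro n i
    have : i.castSucc ≠ Fin.last r := (Fin.castSucc_lt_last i).ne
    simp only [hf, if_neg this, Fin.val_castSucc]
  have hlast : ∀ n : ℕ, f n (Fin.last r) = n := by
    intro n
    simp only [hf, if_true]
  have hmaps : ∀ n ∈ S, f n ∈ Tup r T a b := by
    rintro n ⟨h1, h2, h3⟩
    have hle : ∀ m : ℕ, n ≤ m → m ≤ n + r → ord n ≤ ord m ∧ ord m ≤ ord (n + r) := fun m h5 h6 =>
      ⟨SG.ord_mono h1 h5, SG.ord_mono (by omega) h6⟩
    refine ⟨?_, ?_, ?_⟩
    · intro i j hij
      induction i using Fin.lastCases with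
      | last =>
        induction j using Fin.lastCases with
        | last => rfl
        | cast j =>
          rw [hlast, hcs] at hij
          omega
      | cast i =>
        induction j using Fin.lastCases with
        | last =>
          rw [hlast, hcs] at hij
          omega
        | cast j =>
          rw [hcs, hcs] at hij
          congr 1
          apply Fin.ext
          omega
    · intro i
      induction i using Fin.lastCases with
      | last =>
        rw [hlast]
        exact ⟨h1, (hle n le_rfl (by omega)).2.trans h2⟩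
      | cast i =>
        rw [hcs]
        have hi := i.isLt
        exact ⟨by omega, (hle (n + 1 + i) (by omega) (by omega)).2.trans h2⟩
    · intro i
      rw [hcs, hlast]
      have hi := i.isLt
      obtain ⟨h5, h6⟩ := hle (n + 1 + i) (by omega) (by omega)
      have h7 : 0 ≤ (ord (n + 1 + i) - ord n) * (Real.log T / (2 * Real.pi)) :=
        mul_nonneg (by linarith) (by positivity)
      refine ⟨(ha i).trans h7, le_trans ?_ (hb i)⟩
      calc (ord (n + 1 + i) - ord n) * (Real.log T / (2 * Real.pi)) ≤
            (2 * Real.pi * c / Real.log T) * (Real.log T / (2 * Real.pi)) :=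
            mul_le_mul_of_nonneg_right (by linarith) (by positivity)
        _ = c := by field_simp
  have hinj : Set.InjOn f S := by
    intro n _ m _ hnm
    have := congrFun hnm (Fin.last r)
    rwa [hlast, hlast] at this
  exact_mod_cast Set.ncard_le_ncard_of_injOn f hmaps hinj (Tup_finite r T a b)

end RGap
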