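import Pool.Agent.H297R2.LG.Defs

/-! # r-gaps between zeros of the zeta function: definitions

`L = log T`.  Everything as in TEAM LG (`Pool/Agent/H297R2/LG/Defs.lean`), except that the coefficient
of a prime `p` is `s (Eb P T p) * yp P r T p` with signs `s m = ±1` depending only on the bin. -/

open Complex Filter Topology Set MeasureTheory

namespace RGap

open SG (hh nn dd dl ord NZ)
open SP (RHs ZZ mu wt Mk Par Eb PS chi qq tt)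
open LG (gK gh Zs bk lk fam prs nA yp ae EE Cn QT tm sm sm0 IsQ SF SM)

/-- signs -/
def IsSgn (s : ℕ → ℝ) : Prop := ∀ m, s m = 1 ∨ s m = -1

/-- sign of a set of primes -/
noncomputable def sg (P : Par) (s : ℕ → ℝ) (T : ℝ) (A : Finset ℕ) : ℝ := ∏ p ∈ A, s (Eb P T p)

/-- signed coefficient of a set -/
noncomputable def aeS (P : Par) (r : ℝ) (F s : ℕ → ℝ) (T : ℝ) (A : Finset ℕ) : ℝ :=
  sg P s T A * ae P r F T A

/-- the signed two-sided Dirichlet polynomial -/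
noncomputable def EES (P : Par) (B0 : ℕ) (r : ℝ) (F s : ℕ → ℝ) (T t : ℝ) : ℂ :=
  ∑ q ∈ prs P B0 T, ((aeS P r F s T q.1 * aeS P r F s T q.2 : ℝ) : ℂ) *
    cexp (I * ((t * (Real.log (nA q.2) - Real.log (nA q.1)) : ℝ) : ℂ))

/-- the diagonal of `|EES|² n^{-it}` -/
noncomputable def CnS (P : Par) (B0 : ℕ) (r : ℝ) (F s : ℕ → ℝ) (T : ℝ) (n : ℕ) : ℝ :=
  ∑ q ∈ prs P B0 T, ∑ q' ∈ prs P B0 T,
    if nA q.2 * nA q'.1 = n * (nA q.1 * nA q'.2) then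
      (aeS P r F s T q.1 * aeS P r F s T q.2) * (aeS P r F s T q'.1 * aeS P r F s T q'.2) else 0

/-- the (signed) limit functional: `(4r/π) ∑ s_m sm0_m SM_m` -/
noncomputable def LM (P : Par) (B0 : ℕ) (r : ℝ) (F q s : ℕ → ℝ) (c : ℝ) : ℝ :=
  4 * r / Real.pi * ∑ m ∈ Finset.Icc 2 B0, s m * (sm0 P c m * SM B0 F q m)

/-- ideal value of `sm0` for the sub-bin `[m w e^{-1/m}, m w]` -/
noncomputable def smI (w c : ℝ) (m : ℕ) : ℝ :=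
  ∫ u in (m * w * Real.exp (-1 / m))..(m * w), Real.sin (Real.pi * c * u) / u

/-- number of zeros with ordinate in `(t - ρ, t + ρ]` (real valued) -/
noncomputable def NN (ρ t : ℝ) : ℝ := (NZ (t + ρ) : ℝ) - NZ (t - ρ)

/-- the value of the Montgomery-Odlyzko functional for the simplest resonator -/
noncomputable def lam1 (c : ℝ) : ℝ :=
  4 / Real.pi * ∫ v in (0 : ℝ)..1, Real.pi * c / 2 * Real.sinc (Real.pi * c / 2 * v) * (1 - v)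

/-- number of `n` near `t0` with a large `k`-gap -/
noncomputable def NLarge (k : ℕ) (x T R t0 : ℝ) : ℕ :=
  {n : ℕ | 1 ≤ n ∧ |ord n - t0| ≤ R ∧ 2 * Real.pi * x / Real.log T < ord (n + k) - ord n}.ncard

/-- number of `n` near `t0` with a small `k`-gap -/
noncomputable def NSmall (k : ℕ) (x T R t0 : ℝ) : ℕ :=
  {n : ℕ | 1 ≤ n ∧ |ord n - t0| ≤ R ∧ ord (n + k) - ord n ≤ 2 * Real.pi * x / Real.log T}.ncard

/-- many large `k`-gaps (`> c`) near every `t0` -/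
def LocLarge (κ : ℝ) (k : ℕ) (c : ℝ) : Prop :=
  ∃ η ε K T0 : ℝ, 0 < η ∧ 0 < ε ∧ 1 ≤ K ∧ 10 ≤ T0 ∧ ∀ T : ℝ, T0 ≤ T →
    ∀ t0 : ℝ, 11 / 10 * T ≤ t0 → t0 ≤ 19 / 10 * T →
    ε * dd κ T * Real.log T ≤ (NLarge k (c + η) T (K * dd κ T) t0 : ℝ)

/-- many small `k`-gaps (`< c`) near every `t0` -/
def LocSmall (κ : ℝ) (k : ℕ) (c : ℝ) : Prop :=
  ∃ η ε K T0 : ℝ, 0 < η ∧ 0 < ε ∧ 1 ≤ K ∧ 10 ≤ T0 ∧ ∀ T : ℝ, T0 ≤ T →
    ∀ t0 : ℝ, 11 / 10 * T ≤ t0 → t0 ≤ 19 / 10 * T →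
    ε * dd κ T * Real.log T ≤ (NSmall k (c - η) T (K * dd κ T) t0 : ℝ)

/-- a positive proportion of the normalised `k`-gaps exceeds `c` -/
def PosLarge (k : ℕ) (c : ℝ) : Prop :=
  ∃ ε : ℝ, 0 < ε ∧ ∀ᶠ N : ℕ in atTop, ε * N ≤
    (({n : ℕ | 1 ≤ n ∧ n ≤ N ∧
      c < (ord (n + k) - ord n) / (2 * Real.pi) * Real.log (ord n / (2 * Real.pi))}.ncard : ℕ) : ℝ)

/-- a positive proportion of the normalised `k`-gaps is smaller than `c` -/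
def PosSmall (k : ℕ) (c : ℝ) : Prop :=
  ∃ ε : ℝ, 0 < ε ∧ ∀ᶠ N : ℕ in atTop, ε * N ≤
    (({n : ℕ | 1 ≤ n ∧ n ≤ N ∧
      (ord (n + k) - ord n) / (2 * Real.pi) * Real.log (ord n / (2 * Real.pi)) < c}.ncard : ℕ) : ℝ)

/-- `≫ T log T` indices `n` with `ord (n + k) ≤ T` and `ord (n + k) - ord n ≤ 2πc / log T` -/
def PosT (k : ℕ) (c : ℝ) : Prop :=
  ∃ ε T0 : ℝ, 0 < ε ∧ 10 ≤ T0 ∧ ∀ T : ℝ, T0 ≤ T → ε * (T * Real.log T) ≤
    (({n : ℕ | 1 ≤ n ∧ ord (n + k) ≤ T ∧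
      ord (n + k) - ord n ≤ 2 * Real.pi * c / Real.log T}.ncard : ℕ) : ℝ)

end RGap
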