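import Pool.Agent.H360R2.RG.Stubs

/-! # r-gaps: final assembly from the task statements -/

open Complex Filter Topology Set MeasureTheory

namespace RGap

open SG (hh nn dd dl ord NZ)
open SP (RHs ZZ mu wt Mk Par Eb PS chi qq tt)
open LG (gK gh Zs bk lk fam prs nA yp ae EE Cn QT tm sm sm0 IsQ SF SM)

theorem LM_neg (P : Par) (B0 : ℕ) (r : ℝ) (F q s : ℕ → ℝ) (c : ℝ) :
    LM P B0 r F q (fun m => -s m) c = -LM P B0 r F q s c := by
  unfold LM
  rw [← mul_neg, ← Finset.sum_neg_distrib]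
  congr 1
  apply Finset.sum_congr rfl
  intro m _
  ring

theorem IsSgn.neg {s : ℕ → ℝ} (h : IsSgn s) : IsSgn (fun m => -s m) := by
  intro m
  rcases h m with h | h
  · right; simp only [h]
  · left; simp only [h]; norm_num

theorem Ideal.mono {κ : ℝ} {B0 : ℕ} {r : ℝ} {V F s : ℕ → ℝ} {x x' c : ℝ}
    (h : Ideal κ B0 r V F s x c) (hx : x' ≤ x) : Ideal κ B0 r V F s x' c := by
  intro q hq
  obtain ⟨h1, h2⟩ := h q hq
  exact ⟨h1, (mul_le_mul_of_nonneg_right hx h1.le).trans_lt h2⟩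

theorem PosLarge.mono {k : ℕ} {c c' : ℝ} (h : PosLarge k c) (hc : c' ≤ c) : PosLarge k c' := by
  obtain ⟨ε, hε, h⟩ := h
  refine ⟨ε, hε, ?_⟩
  filter_upwards [h] with N hN
  refine hN.trans ?_
  have : {n : ℕ | 1 ≤ n ∧ n ≤ N ∧
      c < (ord (n + k) - ord n) / (2 * Real.pi) * Real.log (ord n / (2 * Real.pi))}.ncard ≤
      {n : ℕ | 1 ≤ n ∧ n ≤ N ∧
      c' < (ord (n + k) - ord n) / (2 * Real.pi) * Real.log (ord n / (2 * Real.pi))}.ncard := by
    apply Set.ncard_le_ncard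
    · rintro n ⟨h1, h2, h3⟩
      exact ⟨h1, h2, hc.trans_lt h3⟩
    · exact (Set.finite_Iic N).subset (fun n hn => hn.2.1)
  exact_mod_cast this

theorem PosSmall.mono {k : ℕ} {c c' : ℝ} (h : PosSmall k c) (hc : c ≤ c') : PosSmall k c' := by
  obtain ⟨ε, hε, h⟩ := h
  refine ⟨ε, hε, ?_⟩
  filter_upwards [h] with N hN
  refine hN.trans ?_
  have : {n : ℕ | 1 ≤ n ∧ n ≤ N ∧
      (ord (n + k) - ord n) / (2 * Real.pi) * Real.log (ord n / (2 * Real.pi)) < c}.ncard ≤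
      {n : ℕ | 1 ≤ n ∧ n ≤ N ∧
      (ord (n + k) - ord n) / (2 * Real.pi) * Real.log (ord n / (2 * Real.pi)) < c'}.ncard := by
    apply Set.ncard_le_ncard
    · rintro n ⟨h1, h2, h3⟩
      exact ⟨h1, h2, h3.trans_le hc⟩
    · exact (Set.finite_Iic N).subset (fun n hn => hn.2.1)
  exact_mod_cast this

theorem finT (k : ℕ) (T : ℝ) (p : ℕ → Prop) : {n : ℕ | 1 ≤ n ∧ ord (n + k) ≤ T ∧ p n}.Finite := by
  refine (Set.finite_Iic (NZ T)).subset ?_
  rintro n ⟨h1, h2, -⟩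
  have h3 := (SG.ord_le_iff (n := n + k) (by omega) T).mp h2
  simp only [Set.mem_Iic]
  omega

theorem PosT.mono {k : ℕ} {c c' : ℝ} (h : PosT k c) (hc : c ≤ c') : PosT k c' := by
  obtain ⟨ε, T0, hε, hT0, h⟩ := h
  refine ⟨ε, T0, hε, hT0, fun T hT => ?_⟩
  have hlog : 0 < Real.log T := Real.log_pos (by linarith)
  refine (h T hT).trans ?_
  have : {n : ℕ | 1 ≤ n ∧ ord (n + k) ≤ T ∧
      ord (n + k) - ord n ≤ 2 * Real.pi * c / Real.log T}.ncard ≤
      {n : ℕ | 1 ≤ n ∧ ord (n + k) ≤ T ∧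
      ord (n + k) - ord n ≤ 2 * Real.pi * c' / Real.log T}.ncard := by
    apply Set.ncard_le_ncard
    · rintro n ⟨h1, h2, h3⟩
      refine ⟨h1, h2, h3.trans ?_⟩
      have := Real.pi_pos
      gcongr
    · exact finT k T _
  exact_mod_cast this

section

variable (hL : LOCL) (hS : LOCS) (hPL : POSL) (hPS : POSS) (hPT : POST) (hPG : PARG)

include hL hPL hPG in
theorem large_of_ideal (hRH : RHs) {κ : ℝ} {B0 : ℕ} {r : ℝ} {V F s : ℕ → ℝ} {c : ℝ} {k : ℕ}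
    (hκ : 0 < κ) (hκ1 : κ < 1 / 2) (hB0 : 1 ≤ B0) (hr : 0 < r) (hV : ∀ m, 0 ≤ V m ∧ V m ≤ 1)
    (hs : IsSgn s) (hk : 1 ≤ k) (hc : 0 < c) (hI : Ideal κ B0 r V F s (c - k) c) :
    PosLarge k c := by
  obtain ⟨P, q, h1, h2, h3, h4⟩ := hPG κ hκ hκ1 B0 hB0 r V F s hV _ _ hI
  exact hPL P.κ P.hκ k c hk hc (hL hRH P B0 h1 r hr F q s hs h2 h3 k c hk hc h4)

include hS hPS hPT hPG in
theorem small_of_ideal (hRH : RHs) {κ : ℝ} {B0 : ℕ} {r : ℝ} {V F s : ℕ → ℝ} {c : ℝ} {k : ℕ}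
    (hκ : 0 < κ) (hκ1 : κ < 1 / 2) (hB0 : 1 ≤ B0) (hr : 0 < r) (hV : ∀ m, 0 ≤ V m ∧ V m ≤ 1)
    (hs : IsSgn s) (hk : 1 ≤ k) (hc : 0 < c) (hI : Ideal κ B0 r V F s (k - c) c) :
    PosSmall k c ∧ PosT k c := by
  obtain ⟨P, q, h1, h2, h3, h4⟩ := hPG κ hκ hκ1 B0 hB0 r V F s hV _ _ hI
  have h5 := hS hRH P B0 h1 r hr F q (fun m => -s m) hs.neg h2 h3 k c hk hc
    (by rw [LM_neg, neg_neg]; exact h4)
  exact ⟨hPS P.κ P.hκ k c hk hc h5, hPT P.κ P.hκ k c hk hc h5⟩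

include hL hS hPL hPS hPT hPG in
theorem CRIT_of (hI1 : IDEAL1) : CRIT := by
  intro hRH k c hk hc
  constructor
  · intro h
    obtain ⟨κ, B0, h1, h2, h3, h4⟩ := hI1 c (c - k) hc h
    exact large_of_ideal hL hPL hPG hRH h1 h2 h3 one_pos (fun _ => ⟨zero_le_one, le_rfl⟩)
      (fun _ => Or.inl rfl) hk hc h4
  · intro h
    obtain ⟨κ, B0, h1, h2, h3, h4⟩ := hI1 c (k - c) hc h
    exact small_of_ideal hS hPS hPT hPG hRH h1 h2 h3 one_pos (fun _ => ⟨zero_le_one, le_rfl⟩)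
      (fun _ => Or.inl rfl) hk hc h4

include hL hS hPL hPS hPT hPG in
theorem ASYM_of (hI2 : IDEAL2) : ASYM := by
  intro hRH ε hε
  set e : ℝ := min ε 1 with he
  have he0 : 0 < e := lt_min hε one_pos
  have he1 : e ≤ 1 := min_le_right _ _
  have hee : e ≤ ε := min_le_left _ _
  obtain ⟨c0, hc0, hI⟩ := hI2 (e / 2) (by linarith)
  set θ : ℝ := (2 - e) / (2 - e / 2) with hθ
  have hθ0 : 0 < θ := div_pos (by linarith) (by linarith)
  have hθ1 : θ < 1 := by rw [hθ, div_lt_one (by linarith)]; linarith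
  have hθ2 : θ ^ 2 < 1 := by nlinarith
  have hθe : θ * (2 - e / 2) = 2 - e := by
    rw [hθ]
    exact div_mul_cancel₀ _ (by linarith : (0 : ℝ) < 2 - e / 2).ne'
  -- choice of `k0`
  set R : ℝ := max (2 / (1 - θ ^ 2)) (c0 / θ ^ 2 + 1) with hR
  have hR1 : 1 ≤ R := by
    refine le_trans ?_ (le_max_right _ _)
    have : 0 < c0 / θ ^ 2 := by positivity
    linarith
  refine ⟨⌈R ^ 2⌉₊, fun k hk => ?_⟩
  have hkR : R ^ 2 ≤ (k : ℝ) := (Nat.le_ceil _).trans (by exact_mod_cast hk)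
  have hsR : R ≤ Real.sqrt k := Real.le_sqrt_of_sq_le hkR
  have hk1 : (1 : ℝ) ≤ k := by nlinarith
  have hk1' : 1 ≤ k := by exact_mod_cast hk1
  have hk0 : (0 : ℝ) < k := by linarith
  set S : ℝ := Real.sqrt k with hS'
  have hSS : S ^ 2 = k := Real.sq_sqrt hk0.le
  have hS1 : 1 ≤ S := hR1.trans hsR
  have hkc0 : c0 ≤ θ ^ 2 * k := by
    have h1 : c0 / θ ^ 2 ≤ k := by
      have h2 : c0 / θ ^ 2 + 1 ≤ R := le_max_right _ _
      nlinarith
    rw [div_le_iff₀ (by positivity)] at h1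
    linarith
  -- the large side
  have hlarge : PosLarge k (k + (2 - e) * S) := by
    set c : ℝ := k + (2 - e) * S with hc
    have hck : (k : ℝ) ≤ c := by
      rw [hc]
      have : 0 ≤ (2 - e) * S := mul_nonneg (by linarith) (by linarith)
      linarith
    have hcc : c0 ≤ c := by nlinarith
    obtain ⟨κ, B0, r, V, s, h1, h2, h3, h4, h5, h6, h7⟩ := hI c hcc
    refine large_of_ideal hL hPL hPG hRH h1 h2 h3 h4 h5 h6 hk1' (by linarith) (h7.mono ?_)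
    have h8 : S ≤ Real.sqrt c := Real.sqrt_le_sqrt hck
    have h9 : c - k = (2 - e) * S := by rw [hc]; ring
    rw [h9]
    apply mul_le_mul (by linarith) h8 (by linarith) (by linarith)
  -- the small side
  have hsmall : PosSmall k (k - (2 - e) * S) ∧ PosT k (k - (2 - e) * S) := by
    set c : ℝ := k - (2 - e) * S with hc
    have h0 : 2 / (1 - θ ^ 2) ≤ S := (le_max_left _ _).trans hsR
    rw [div_le_iff₀ (by linarith)] at h0
    have hcθ : θ ^ 2 * k ≤ c := by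
      have h1 : (2 - e) * S ≤ (1 - θ ^ 2) * k := by
        rw [← hSS]
        nlinarith
      rw [hc]
      linarith
    have hcc : c0 ≤ c := hkc0.trans hcθ
    obtain ⟨κ, B0, r, V, s, h1, h2, h3, h4, h5, h6, h7⟩ := hI c hcc
    refine small_of_ideal hS hPS hPT hPG hRH h1 h2 h3 h4 h5 h6 hk1' (by linarith) (h7.mono ?_)
    have h8 : θ * S ≤ Real.sqrt c := by
      apply Real.le_sqrt_of_sq_le
      rw [mul_pow, hSS]
      exact hcθ
    have h9 : k - c = (2 - e) * S := by rw [hc]; ring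
    rw [h9, ← hθe]
    have : θ * (2 - e / 2) * S = (2 - e / 2) * (θ * S) := by ring
    rw [this]
    exact mul_le_mul_of_nonneg_left h8 (by linarith)
  have hmono : (2 - ε) * S ≤ (2 - e) * S := mul_le_mul_of_nonneg_right (by linarith) (by linarith)
  exact ⟨hlarge.mono (by linarith), hsmall.1.mono (by linarith), hsmall.2.mono (by linarith)⟩

end

end RGap
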