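import Pool.Agent.H360R2.RG.Count

/-! # r-gaps: closed form of `lam1` -/

open Complex Filter Topology Set MeasureTheory

namespace RGap

theorem lam1_eq (c : ℝ) : lam1 c =
    4 / Real.pi * ∫ v in (0 : ℝ)..1, Real.sin (Real.pi * c * v / 2) / v * (1 - v) := by
  unfold lam1
  congr 1
  rw [intervalIntegral.integral_of_le zero_le_one, intervalIntegral.integral_of_le zero_le_one]
  apply setIntegral_congr_fun measurableSet_Ioc
  intro v hv
  have hv0 : 0 < v := hv.1
  simp only
  by_cases hc : Real.pi * c / 2 = 0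
  · have h2 : Real.pi * c * v / 2 = 0 := by
      have : Real.pi * c * v / 2 = (Real.pi * c / 2) * v := by ring
      rw [this, hc, zero_mul]
    rw [hc, h2, Real.sin_zero]
    ring
  · have h1 : Real.pi * c / 2 * v ≠ 0 := mul_ne_zero hc hv0.ne'
    rw [Real.sinc_of_ne_zero h1]
    have h2 : Real.pi * c * v / 2 = Real.pi * c / 2 * v := by ring
    rw [h2]
    have h3 : Real.pi * c / 2 * (Real.sin (Real.pi * c / 2 * v) / (Real.pi * c / 2 * v)) =
        Real.sin (Real.pi * c / 2 * v) / v := by
      rw [mul_div_assoc', mul_div_mul_left _ _ hc]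
    rw [h3]

/-- the unfolded gap is at most the normalised gap -/
theorem gap_le (n : ℕ) (hn : 1 ≤ n) :
    (SG.ord (n + 1) - SG.ord n) / (2 * Real.pi) * Real.log (SG.ord n / (2 * Real.pi)) ≤
      SG.ord (n + 1) * Real.log (SG.ord (n + 1)) / (2 * Real.pi) -
        SG.ord n * Real.log (SG.ord n) / (2 * Real.pi) := by
  have hpi := Real.pi_gt_three
  have hp : 0 < SG.ord n := SG.ord_pos hn
  have hp' : 0 < SG.ord (n + 1) := SG.ord_pos (by omega)
  have h7 : SG.ord n ≤ SG.ord (n + 1) := SG.ord_mono hn (by omega)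
  have h8 : Real.log (SG.ord n / (2 * Real.pi)) ≤ Real.log (SG.ord n) := by
    apply Real.log_le_log (by positivity)
    apply div_le_self hp.le
    linarith
  have h9 : Real.log (SG.ord n) ≤ Real.log (SG.ord (n + 1)) := Real.log_le_log hp h7
  rw [div_mul_eq_mul_div, ← sub_div]
  apply div_le_div_of_nonneg_right _ (by positivity)
  have h10 : (SG.ord (n + 1) - SG.ord n) * Real.log (SG.ord n / (2 * Real.pi)) ≤
      (SG.ord (n + 1) - SG.ord n) * Real.log (SG.ord n) :=
    mul_le_mul_of_nonneg_left h8 (by linarith)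
  have h11 : SG.ord (n + 1) * Real.log (SG.ord n) ≤
      SG.ord (n + 1) * Real.log (SG.ord (n + 1)) :=
    mul_le_mul_of_nonneg_left h9 hp'.le
  linarith

end RGap
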