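import Pool.Agent.H360R2.RG.Lam
import Pool.Agent.H380R2.RG.SGN
import Pool.Agent.H99R2.RG.MEANS
import Pool.Agent.H99R2.RG.COMBS
import Pool.Agent.H473R2.RG.MLIM
import Pool.Agent.H723R2.RG.EESB
import Pool.Agent.H768R2.RG.MKM
import Pool.Agent.H768R2.RG.ZLOW
import Pool.Agent.H726R2.RG.ZUP
import Pool.Agent.H726R2.RG.ORD
import Pool.Agent.H726R2.RG.SINCL
import Pool.Agent.H291R2.RG.PARC
import Pool.Agent.H941R2.RG.LOCL
import Pool.Agent.H497R2.RG.LOCS
import Pool.Agent.H394R2.RG.POSL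
import Pool.Agent.H394R2.RG.POSS
import Pool.Agent.H619R2.RG.Parg
import Pool.Agent.H862R2.RG.IDEAL1
import Pool.Agent.H780R2.RG.NUM1
import Pool.Agent.H273R2.RG.CHERN
import Pool.Agent.H457R2.RG.RSUM
import Pool.Agent.H273R2.RG.IDEAL2

/-! # r-gaps: the main theorems -/

namespace RGap

theorem COMBS_main : COMBS := COMBS_of SGN_proof
theorem MLIM_main : MLIM := MLIM_of MEANS_proof COMBS_main
theorem LOCL_main : LOCL := LOCL_of MLIM_main EESB_proof MKM_proof ZLOW_proof ORDL_proof PARC_proof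
theorem LOCS_main : LOCS :=
  LOCS_of MLIM_main EESB_proof MKM_proof ZUP_proof NZMK_proof ORDS_proof PARC_proof
theorem IDEAL2_main : IDEAL2 := IDEAL2_of CHERN_proof RSUM_proof SINCL_proof
theorem CRIT_main : CRIT :=
  CRIT_of LOCL_main LOCS_main POSL_proof POSS_proof POST_proof PARG_proof IDEAL1_proof
theorem ASYM_main : ASYM :=
  ASYM_of LOCL_main LOCS_main POSL_proof POSS_proof POST_proof PARG_proof IDEAL2_main
theorem NUM1_main : NUM1 := NUM1_proof

end RGap
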