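import Pool.Agent.H360R2.RG.Defs

/-! # r-gaps: the statements (as propositions).

Task `X` = one file `Pool/Agent/<YOURDIR>/RG/X.lean` proving `theorem RGap.X_proof : RGap.X` (or, if the
note says it uses Y, Z, `theorem RGap.X_of (hY : Y) (hZ : Z) : X`). -/

open Complex Filter Topology Set MeasureTheory

namespace RGap

open SG (hh nn dd dl ord NZ)
open SP (RHs ZZ mu wt Mk Par Eb PS chi qq tt)
open LG (gK gh Zs bk lk fam prs nA yp ae EE Cn QT tm sm sm0 IsQ SF SM)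

/-! ## A. the signed mean values -/

/-- A1. the signed diagonal coefficients -/
def SGN : Prop := ∀ (P : Par) (B0 : ℕ) (r : ℝ) (F s : ℕ → ℝ) (T : ℝ), IsSgn s → 10 ≤ T →
  CnS P B0 r F s T 1 = Cn P B0 r F T 1 ∧
  (∀ p ∈ PS P T, CnS P B0 r F s T p = s (Eb P T p) * Cn P B0 r F T p) ∧
  (∀ p ∈ PS P T, CnS P B0 r F s T (p ^ 2) = Cn P B0 r F T (p ^ 2)) ∧
  (∀ p k : ℕ, p.Prime → 1 ≤ k → (p ∉ PS P T ∨ 3 ≤ k) → CnS P B0 r F s T (p ^ k) = 0)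

/-- A2. mean values of `|EES|²` and `|EES|² Zs` -/
def MEANS : Prop := RHs → ∀ (P : Par) (B0 : ℕ), P.B = 2 * B0 → ∀ (r : ℝ) (F s : ℕ → ℝ), IsSgn s →
    ∀ (A c : ℝ), 0 < A → 0 < c → ∃ C T0 : ℝ, 0 < C ∧ 10 ≤ T0 ∧ ∀ T : ℝ, T0 ≤ T →
    ∀ t0 : ℝ, 11 / 10 * T ≤ t0 → t0 ≤ 19 / 10 * T →
    |(∫ t in (T + 2 * Real.log T)..(2 * T - 2 * Real.log T),
        wt t0 (dd P.κ T) t * ‖EES P B0 r F s T t‖ ^ 2) -
      Real.sqrt (2 * Real.pi) * dd P.κ T * CnS P B0 r F s T 1| ≤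
      C * dd P.κ T / Real.log T * (1 + |CnS P B0 r F s T 1|) ∧
    |(∫ t in (T + 2 * Real.log T)..(2 * T - 2 * Real.log T),
        wt t0 (dd P.κ T) t * ‖EES P B0 r F s T t‖ ^ 2 * Zs A c T t) -
      Real.sqrt (2 * Real.pi) * dd P.κ T * (c * CnS P B0 r F s T 1 -
        (2 / Real.log T) * ∑' n : ℕ, lk A c T n * CnS P B0 r F s T n)| ≤
      C * dd P.κ T / Real.log T * (1 + |CnS P B0 r F s T 1|)

/-- A3. limits of the diagonal terms -/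
def COMBS : Prop := ∀ (P : Par) (B0 : ℕ), P.B = 2 * B0 → ∀ (r : ℝ), 0 < r → ∀ (F q s : ℕ → ℝ),
    IsSgn s → IsQ B0 (tm P r) q → ∀ (A c : ℝ), 0 < A → 0 < c →
    Tendsto (fun T : ℝ => CnS P B0 r F s T 1) atTop (𝓝 (SF B0 F q ^ 2)) ∧
    Tendsto (fun T : ℝ => (2 / Real.log T) * ∑' n : ℕ, lk A c T n * CnS P B0 r F s T n) atTop
      (𝓝 (4 * r / Real.pi * (SF B0 F q *
        ∑ m ∈ Finset.Icc 2 B0, s m * (sm P A c m * SM B0 F q m))))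

/-- A4. limits of the mean values, uniformly in `t0` -/
def MLIM : Prop := RHs → ∀ (P : Par) (B0 : ℕ), P.B = 2 * B0 → ∀ (r : ℝ), 0 < r →
    ∀ (F q s : ℕ → ℝ), IsSgn s → IsQ B0 (tm P r) q → ∀ (A c : ℝ), 0 < A → 0 < c →
    ∀ δ : ℝ, 0 < δ → ∃ T0 : ℝ, 10 ≤ T0 ∧ ∀ T : ℝ, T0 ≤ T →
    ∀ t0 : ℝ, 11 / 10 * T ≤ t0 → t0 ≤ 19 / 10 * T →
    |(∫ t in (T + 2 * Real.log T)..(2 * T - 2 * Real.log T),
        wt t0 (dd P.κ T) t * ‖EES P B0 r F s T t‖ ^ 2) -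
      Real.sqrt (2 * Real.pi) * dd P.κ T * SF B0 F q ^ 2| ≤ δ * dd P.κ T ∧
    |(∫ t in (T + 2 * Real.log T)..(2 * T - 2 * Real.log T),
        wt t0 (dd P.κ T) t * ‖EES P B0 r F s T t‖ ^ 2 * Zs A c T t) -
      Real.sqrt (2 * Real.pi) * dd P.κ T * (SF B0 F q * (c * SF B0 F q -
        4 * r / Real.pi * ∑ m ∈ Finset.Icc 2 B0, s m * (sm P A c m * SM B0 F q m)))| ≤
      δ * dd P.κ T

/-- A5. pointwise bound for `EES` -/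
def EESB : Prop := RHs → ∀ (P : Par) (B0 : ℕ), P.B = 2 * B0 → ∀ (r : ℝ), 0 < r →
    ∀ (F s : ℕ → ℝ), IsSgn s → ∃ C T0 : ℝ, 0 < C ∧ 10 ≤ T0 ∧ ∀ T : ℝ, T0 ≤ T → ∀ t : ℝ,
    T + 2 * Real.log T ≤ t → t ≤ 2 * T - 2 * Real.log T →
    ‖EES P B0 r F s T t‖ ≤ C * (1 + Mk T 1 t) ^ (2 * B0)

/-- A6. all moments of `Mk` -/
def MKM : Prop := RHs → ∀ κ : ℝ, 0 < κ → κ < 1 / 2 → ∀ j : ℕ,
    ∃ C T0 : ℝ, 0 < C ∧ 10 ≤ T0 ∧ ∀ T : ℝ, T0 ≤ T → ∀ t0 : ℝ,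
    ∫ t in (T + 2 * Real.log T)..(2 * T - 2 * Real.log T),
      wt t0 (dd κ T) t * (1 + Mk T 1 t) ^ j ≤ C * dd κ T

/-! ## B. kernel, counting, parameters -/

/-- B1. lower bound of `Zs` by the number of zeros in a shorter window -/
def ZLOW : Prop := ∀ (A c c0 e : ℝ), 0 < A → 0 < c0 → c0 < c → 0 < e → e < 1 →
    (∀ x : ℝ, |x| ≤ Real.pi * c0 → 1 - e ≤ gK A c x) →
    ∃ T0 : ℝ, 10 ≤ T0 ∧ ∀ T : ℝ, T0 ≤ T → ∀ t : ℝ,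
    T + Real.log T ≤ t → t ≤ 2 * T - Real.log T →
    (1 - 2 * e) * NN (Real.pi * c0 / Real.log T) t ≤ Zs A c T t

/-- B2. upper bound of `Zs` by the number of zeros in a longer window -/
def ZUP : Prop := ∀ (c1 c2 e : ℝ), 0 < c1 → c1 < c2 → 0 < e → ∃ A0 : ℝ, 0 < A0 ∧
    ∀ A : ℝ, A0 ≤ A → ∃ T0 : ℝ, 10 ≤ T0 ∧ ∀ T : ℝ, T0 ≤ T → ∀ t : ℝ,
    T + Real.log T ≤ t → t ≤ 2 * T - Real.log T →
    Zs A c1 T t ≤ NN (Real.pi * c2 / Real.log T) t + e * Mk T 1 t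

/-- B3. number of zeros in a short window -/
def NZMK : Prop := ∀ c : ℝ, 0 < c → ∃ C T0 : ℝ, 0 < C ∧ 10 ≤ T0 ∧ ∀ T : ℝ, T0 ≤ T → ∀ t : ℝ,
    T + Real.log T ≤ t → t ≤ 2 * T - Real.log T →
    0 ≤ NN (Real.pi * c / Real.log T) t ∧ NN (Real.pi * c / Real.log T) t ≤ C * Mk T 1 t

/-- B4. fewer than `k` zeros in a window: a large `k`-gap; dichotomy for very large ones -/
def ORDL : Prop := ∀ (T t ρ X : ℝ) (k : ℕ), 1 ≤ T → 1 ≤ k → 0 < ρ → 0 < X → T + ρ < t →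
    1 ≤ NZ (t - ρ) → NZ (t + ρ) < NZ (t - ρ) + k →
    2 * ρ < ord (NZ (t - ρ) + k) - ord (NZ (t - ρ)) ∧
    ord (NZ (t - ρ)) ≤ t ∧ t ≤ ord (NZ (t - ρ) + k) ∧
    (ord (NZ (t - ρ) + k) - ord (NZ (t - ρ)) ≤ 6 * k * X ∨
      (∃ j : ℕ, j < k ∧ ∀ z ∈ ZZ T, X < |z.im - (t + (3 * j + 1) * X)|) ∨
      (∃ j : ℕ, j < k ∧ ∀ z ∈ ZZ T, X < |z.im - (t - (3 * j + 1) * X)|))

/-- B5. more than `k` zeros in a window: a small `k`-gap -/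
def ORDS : Prop := ∀ (t ρ : ℝ) (k : ℕ), 0 < ρ → NZ (t - ρ) + k + 1 ≤ NZ (t + ρ) →
    t - ρ < ord (NZ (t - ρ) + 1) ∧ ord (NZ (t - ρ) + 1) ≤ t + ρ ∧
    ord (NZ (t - ρ) + 1 + k) - ord (NZ (t - ρ) + 1) ≤ 2 * ρ

/-- B6. continuity in the parameters -/
def PARC : Prop := ∀ (P : Par) (B0 : ℕ) (r : ℝ) (F q s : ℕ → ℝ) (c x η0 : ℝ), 0 < η0 →
    x * SF B0 F q < LM P B0 r F q s c →
    ∃ η δ A1 : ℝ, 0 < η ∧ η ≤ η0 ∧ 0 < δ ∧ 0 < A1 ∧ ∀ A c' : ℝ, A1 ≤ A → |c' - c| ≤ 2 * η →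
      (x + 2 * η) * SF B0 F q + 3 * δ ≤
        4 * r / Real.pi * ∑ m ∈ Finset.Icc 2 B0, s m * (sm P A c' m * SM B0 F q m)

/-! ## C. local and global statements -/

/-- C1. many large `k`-gaps (uses MLIM EESB MKM ZLOW ORDL PARC and LG.GAPTAIL) -/
def LOCL : Prop := RHs → ∀ (P : Par) (B0 : ℕ), P.B = 2 * B0 → ∀ (r : ℝ), 0 < r →
    ∀ (F q s : ℕ → ℝ), IsSgn s → IsQ B0 (tm P r) q → 0 < SF B0 F q →
    ∀ (k : ℕ) (c : ℝ), 1 ≤ k → 0 < c →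
    (c - k) * SF B0 F q < LM P B0 r F q s c → LocLarge P.κ k c

/-- C2. many small `k`-gaps (uses MLIM EESB MKM ZUP NZMK ORDS PARC) -/
def LOCS : Prop := RHs → ∀ (P : Par) (B0 : ℕ), P.B = 2 * B0 → ∀ (r : ℝ), 0 < r →
    ∀ (F q s : ℕ → ℝ), IsSgn s → IsQ B0 (tm P r) q → 0 < SF B0 F q →
    ∀ (k : ℕ) (c : ℝ), 1 ≤ k → 0 < c →
    (k - c) * SF B0 F q < -LM P B0 r F q s c → LocSmall P.κ k c

/-- C3. positive proportion, large -/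
def POSL : Prop := ∀ (κ : ℝ), 0 < κ → ∀ (k : ℕ) (c : ℝ), 1 ≤ k → 0 < c →
    LocLarge κ k c → PosLarge k c

/-- C4. positive proportion, small -/
def POSS : Prop := ∀ (κ : ℝ), 0 < κ → ∀ (k : ℕ) (c : ℝ), 1 ≤ k → 0 < c →
    LocSmall κ k c → PosSmall k c

/-- C5. positive proportion up to height `T` -/
def POST : Prop := ∀ (κ : ℝ), 0 < κ → ∀ (k : ℕ) (c : ℝ), 1 ≤ k → 0 < c →
    LocSmall κ k c → PosT k c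

/-! ## D. the parameters -/

/-- the ideal inequality (bins `[m w e^{-1/m}, m w]`, `w = (1-κ)/(2 B0)`, heights `V m`) -/
def Ideal (κ : ℝ) (B0 : ℕ) (r : ℝ) (V F s : ℕ → ℝ) (x c : ℝ) : Prop :=
  ∀ q : ℕ → ℝ, IsQ B0 (fun m => if 2 ≤ m then r ^ 2 * V m ^ 2 else 0) q →
    0 < SF B0 F q ∧ x * SF B0 F q < 4 * r / Real.pi *
      ∑ m ∈ Finset.Icc 2 B0, s m * (V m * smI ((1 - κ) / (2 * B0)) c m * SM B0 F q m)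

/-- D1. from the ideal inequality to smooth parameters -/
def PARG : Prop := ∀ (κ : ℝ), 0 < κ → κ < 1 / 2 → ∀ (B0 : ℕ), 1 ≤ B0 → ∀ (r : ℝ) (V F s : ℕ → ℝ),
    (∀ m, 0 ≤ V m ∧ V m ≤ 1) → ∀ (x c : ℝ), Ideal κ B0 r V F s x c →
    ∃ (P : Par) (q : ℕ → ℝ), P.B = 2 * B0 ∧ IsQ B0 (tm P r) q ∧ 0 < SF B0 F q ∧
      x * SF B0 F q < LM P B0 r F q s c

/-- D2. the simplest resonator: `t_m = 1` for `m ≥ 2`, `F = 1` -/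
def IDEAL1 : Prop := ∀ (c x : ℝ), 0 < c → x < lam1 c → ∃ (κ : ℝ) (B0 : ℕ), 0 < κ ∧ κ < 1 / 2 ∧
    1 ≤ B0 ∧ Ideal κ B0 1 (fun _ => 1) (fun _ => 1) (fun _ => 1) x c

/-- D3. numerics: `lam1 (26/25) = 0.96686...` -/
def NUM1 : Prop := (24 / 25 : ℝ) < lam1 (26 / 25)

/-- D4. truncated Chernoff bound for the sequence `q` -/
def CHERN : Prop := ∀ (N M : ℕ) (t q : ℕ → ℝ), IsQ N t q → (∀ m, 0 ≤ t m) →
    (∀ m, M < m → t m = 0) → (∀ n, n ≤ N → 0 ≤ q n) ∧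
    0 < ∑ n ∈ Finset.range (N + 1), q n ∧
    ∀ (X : ℕ) (θ : ℝ), 0 ≤ θ → θ * M ≤ 1 →
    ∑ n ∈ (Finset.range (N + 1)).filter (fun n => X < n), q n ≤
      Real.exp (-(θ * X) + θ * ∑ m ∈ Finset.Icc 1 M, t m + θ ^ 2 * M * ∑ m ∈ Finset.Icc 1 M, t m) *
        ∑ n ∈ Finset.range (N + 1), q n

/-- D5. Riemann sums for the profile `sinc (π c u)` on `[0, A/c]` -/
def RSUM : Prop := ∀ (κ c A : ℝ), 0 < κ → κ < 1 / 2 → 0 < c → 0 < A →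
    Tendsto (fun B0 : ℕ => (1 - κ) / (2 * B0) * (Real.pi * c) *
      ∑ m ∈ Finset.Icc 2 ⌊A / (c * ((1 - κ) / (2 * (B0 : ℝ))))⌋₊,
        Real.sinc (Real.pi * c * (m * ((1 - κ) / (2 * (B0 : ℝ))))) ^ 2) atTop
      (𝓝 (∫ y in (0 : ℝ)..(Real.pi * A), Real.sinc y ^ 2)) ∧
    Tendsto (fun B0 : ℕ => ∑ m ∈ Finset.Icc 2 ⌊A / (c * ((1 - κ) / (2 * (B0 : ℝ))))⌋₊,
        Real.sinc (Real.pi * c * (m * ((1 - κ) / (2 * (B0 : ℝ))))) *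
          smI ((1 - κ) / (2 * (B0 : ℝ))) c m) atTop
      (𝓝 (∫ y in (0 : ℝ)..(Real.pi * A), Real.sinc y ^ 2))

/-- D6. `∫_0^∞ sinc² = π/2` -/
def SINCL : Prop :=
    Tendsto (fun Y : ℝ => ∫ y in (0 : ℝ)..Y, Real.sinc y ^ 2) atTop (𝓝 (Real.pi / 2)) ∧
    ∀ Y : ℝ, 0 ≤ Y → ∫ y in (0 : ℝ)..Y, Real.sinc y ^ 2 ≤ Real.pi / 2

/-- D7. the asymptotically optimal resonator (uses CHERN RSUM SINCL) -/
def IDEAL2 : Prop := ∀ ε : ℝ, 0 < ε → ∃ c0 : ℝ, 0 < c0 ∧ ∀ c : ℝ, c0 ≤ c →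
    ∃ (κ : ℝ) (B0 : ℕ) (r : ℝ) (V s : ℕ → ℝ), 0 < κ ∧ κ < 1 / 2 ∧ 1 ≤ B0 ∧ 0 < r ∧
    (∀ m, 0 ≤ V m ∧ V m ≤ 1) ∧ IsSgn s ∧
    Ideal κ B0 r V (fun _ => 1) s ((2 - ε) * Real.sqrt c) c

/-! ## E. the final theorems -/

/-- E1. criterion with the simplest resonator -/
def CRIT : Prop := RHs → ∀ (k : ℕ) (c : ℝ), 1 ≤ k → 0 < c →
    (c - k < lam1 c → PosLarge k c) ∧ (k - c < lam1 c → PosSmall k c ∧ PosT k c)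

/-- E2. asymptotic theorem -/
def ASYM : Prop := RHs → ∀ ε : ℝ, 0 < ε → ∃ k0 : ℕ, ∀ k : ℕ, k0 ≤ k →
    PosLarge k (k + (2 - ε) * Real.sqrt k) ∧ PosSmall k (k - (2 - ε) * Real.sqrt k) ∧
    PosT k (k - (2 - ε) * Real.sqrt k)

end RGap
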